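import Pool.Agent.Helper10.SP.GoalsC
import Pool.Agent.Helper4.SP.PARB
import Pool.Agent.Helper8.SP.FIN1
import Pool.Agent.Helper19.Lin.KACT

/-!
# Packet SP-KET: the étale relation of a leaf map with its Kähler metric
-/

open Complex Metric Set Filter Topology MeasureTheory
open scoped ContDiff ComplexConjugate ComplexOrder Manifold Matrix

namespace Pool.Agent.Helper3.SP

open Pool.Agent.Helper95.Lin Pool.Agent.Helper16.Abund Pool.Agent.Helper92.Orb
open Pool.Agent.Helper10.SP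

universe u v

section linear

variable {n : ℕ}

theorem herm_eq (A : Matrix (Fin n) (Fin n) ℂ) (u v : Fin n → ℂ) :
    herm A u v = u ⬝ᵥ (A *ᵥ star v) := by
  unfold herm
  simp only [dotProduct, Matrix.mulVec, Pi.star_apply, Finset.mul_sum]
  refine Finset.sum_congr rfl fun i _ => Finset.sum_congr rfl fun j _ => ?_
  rw [show star (v j) = conj (v j) from rfl]
  ring

theorem herm_mulVec (A D : Matrix (Fin n) (Fin n) ℂ) (u v : Fin n → ℂ) :
    herm A (D *ᵥ u) (D *ᵥ v) = herm (Dᵀ * A * D.map star) u v := by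
  rw [herm_eq, herm_eq]
  have h1 : star (D *ᵥ v) = D.map star *ᵥ star v := by
    ext i
    simp only [Pi.star_apply, Matrix.mulVec, dotProduct, Matrix.map_apply, star_sum, star_mul']
  rw [h1, ← Matrix.mulVec_mulVec, ← Matrix.mulVec_mulVec, Matrix.dotProduct_mulVec u Dᵀ,
    Matrix.vecMul_transpose]

theorem posDef_pull {A D : Matrix (Fin n) (Fin n) ℂ} (hA : A.PosDef) (hD : D.det ≠ 0) :
    (Dᵀ * A * D.map star).PosDef := by
  have hB : (D.map star)ᴴ = Dᵀ := by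
    ext i j
    simp [Matrix.conjTranspose_apply]
  rw [← hB]
  refine hA.conjTranspose_mul_mul_same ?_
  have hdet : (D.map star).det ≠ 0 := by
    have h2 : D.map star = (Dᴴ)ᵀ := by
      ext i j
      simp [Matrix.conjTranspose_apply]
    rw [h2, Matrix.det_transpose, Matrix.det_conjTranspose]
    exact star_ne_zero.2 hD
  exact Matrix.mulVec_injective_of_isUnit
    ((Matrix.isUnit_iff_isUnit_det _).2 (isUnit_iff_ne_zero.2 hdet))

end linear

section metric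

variable {n : ℕ} {M : Type v} [TopologicalSpace M] [ChartedSpace (Fin n → ℂ) M]

/-- The matrix of the differential. -/
noncomputable def dmat (ψ : Cn n → M) (x : Cn n) : Matrix (Fin n) (Fin n) ℂ :=
  LinearMap.toMatrix' (dmap n ψ x : Cn n →ₗ[ℂ] Cn n)

theorem dmat_mulVec (ψ : Cn n → M) (x u : Cn n) : dmat ψ x *ᵥ u = dvec n ψ x u := by
  unfold dmat dvec
  rw [LinearMap.toMatrix'_mulVec]
  rfl

theorem dmat_det (ψ : Cn n → M) (x : Cn n) : (dmat ψ x).det = jac n ψ x := by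
  unfold dmat jac dmap
  rw [LinearMap.det_toMatrix']
  rfl

/-- The pull back of the metric. -/
noncomputable def pull (h : M → Matrix (Fin n) (Fin n) ℂ) (ψ : Cn n → M) (x : Cn n) :
    Matrix (Fin n) (Fin n) ℂ :=
  (dmat ψ x)ᵀ * h (ψ x) * (dmat ψ x).map star

theorem hermi_pull (h : M → Matrix (Fin n) (Fin n) ℂ) (ψ : Cn n → M) (x u v : Cn n) :
    hermi (pull h ψ x) u v = herm (h (ψ x)) (dvec n ψ x u) (dvec n ψ x v) := by
  rw [← dmat_mulVec, ← dmat_mulVec, herm_mulVec]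
  rfl

end metric

theorem isOpen_Bd {b N : ℕ} (c : Fin N → Cn b) (r : ℝ) : IsOpen (Bd c r) :=
  isOpen_iUnion fun _ => isOpen_ball

theorem Bd_mono {b N : ℕ} (c : Fin N → Cn b) {r R : ℝ} (h : r ≤ R) : Bd c r ⊆ Bd c R :=
  iUnion_mono fun _ => ball_subset_ball h

theorem isOpen_tubeS {b : ℕ} {D : Set (Cn b)} (hD : IsOpen D) : IsOpen (tubeS D) :=
  hD.preimage (continuous_base (b := b) (k := 1))

theorem ket (hPARB : S_PARB.{u, v}) : S_KET.{u, v} := by
  intro b N G M _ _ _ _ _ _ _ h v hD c R E Φ hL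
  obtain ⟨hP1, hP2, hP3, hP4, hP5⟩ := hPARB hD
  have hTR : IsOpen (tubeS (Bd c R)) := isOpen_tubeS (isOpen_Bd c R)
  obtain ⟨hpos, hform⟩ := hD.kah
  obtain ⟨hs, hc⟩ := hform (tubeS (Bd c R)) E hL.par.1
  have hHp : ∀ x ∈ tubeS (Bd c R), (pull h E x).PosDef := by
    intro x hx
    refine posDef_pull (hpos _) ?_
    rw [dmat_det]
    exact hL.par.2 x hx
  obtain ⟨hsm, hcl⟩ := Pool.Agent.Helper19.Lin.closed_of_form hTR (H := pull h E)
    (fun x hx => (hHp x hx).1) (κ := metricForm (b + 1) h E) (by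
      intro x hx u v
      unfold metricForm
      rw [← hermi_pull]
      rfl) hs hc
  refine ⟨pull h E, fun r hr1 hrR => ?_⟩
  have hsub : tubeS (Bd c r) ⊆ tubeS (Bd c R) := fun x hx => Bd_mono c hrR hx
  have hT : IsOpen (tubeS (Bd c r)) := isOpen_tubeS (isOpen_Bd c r)
  have hpar : Par (b + 1) E (tubeS (Bd c r)) := Pool.Agent.Helper4.SP.par_mono hL.par hT hsub
  have hEc : ContinuousOn E (tubeS (Bd c r)) := hpar.1.2.continuousOn
  have hcov : ∀ p : M, ∃ γ : G, ∃ x ∈ tubeS (Bd c r), base x ∈ Bd c 1 ∧ ‖lc x‖ < 1 ∧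
      γ • p = E x := by
    intro p
    obtain ⟨γ, z, hz, w, hw, hp⟩ := hL.cov p
    have hb : base (pt z w) = z := Pool.Agent.Helper55.SP.base_pt z w
    refine ⟨γ, pt z w, ?_, ?_, ?_, hp⟩
    · show base (pt z w) ∈ Bd c r
      rw [hb]
      exact Bd_mono c hr1.le hz
    · rw [hb]
      exact hz
    · rw [Pool.Agent.Helper55.SP.lc_pt]
      exact hw
  refine ⟨⟨hT, ?_, ?_, ?_, ?_, ?_, ?_, ?_, ?_, ?_, ?_⟩, fun x hx => hHp x (hsub hx),
    fun i j => (hsm i j).mono hsub, fun x hx => hcl x (hsub hx), ?_⟩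
  · -- nonempty
    refine ⟨pt (c ⟨0, hL.posN⟩) 0, ?_⟩
    show base (pt (c ⟨0, hL.posN⟩) 0) ∈ Bd c r
    rw [Pool.Agent.Helper55.SP.base_pt]
    exact mem_iUnion.2 ⟨_, mem_ball_self (by linarith)⟩
  · -- mem
    exact fun γ x y hxy => ⟨hxy.1, hxy.2.1⟩
  · -- one
    exact fun x hx => ⟨hx, hx, one_smul _ _⟩
  · -- inv
    exact fun γ x y hxy => ⟨hxy.2.1, hxy.1, inv_smul_eq_iff.2 hxy.2.2.symm⟩
  · -- mul
    intro γ γ' x y z hxy hyz
    exact ⟨hxy.1, hyz.2.1, by rw [mul_smul, hxy.2.2, hyz.2.2]⟩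
  · -- loc
    intro γ x y hxy
    obtain ⟨τ, U, W, hU, hW, hxU, hyW, hUV, hWV, hτ, hinj, hmaps, -, hdet, hiff⟩ :=
      hP3 (tubeS (Bd c r)) (tubeS (Bd c r)) E E hpar hpar γ x hxy.1 y hxy.2.1 hxy.2.2
    refine ⟨τ, U, W, hU, hW, hxU, hyW, hUV, hWV, hτ, hinj, hmaps, hdet, fun x' hx' y' hy' => ?_⟩
    rw [← hiff x' hx' y' hy']
    exact ⟨fun h => h.2.2, fun h => ⟨hUV hx', hWV hy', h⟩⟩
  · -- closed
    intro γ x hx y hy hlim
    refine ⟨hx, hy, ?_⟩
    by_contra hne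
    obtain ⟨A, B, hA, hB, hxA, hyB, hAB⟩ := t2_separation hne
    have h1 : ContinuousAt (fun x => γ • E x) x :=
      (hP5 γ).continuousAt.comp (hEc.continuousAt (hT.mem_nhds hx))
    have h2 : ContinuousAt E y := hEc.continuousAt (hT.mem_nhds hy)
    obtain ⟨x', hx', y', hy', hR⟩ := hlim _ (h1.preimage_mem_nhds (hA.mem_nhds hxA)) _
      (h2.preimage_mem_nhds (hB.mem_nhds hyB))
    refine Set.disjoint_left.1 hAB (show γ • E x' ∈ A from hx') ?_
    rw [hR.2.2]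
    exact hy'
  · -- fin
    intro C hCT hC
    have hK := hD.proper (E '' C) (hC.image_of_continuousOn (hEc.mono hCT))
    refine hK.subset ?_
    rintro γ ⟨x, hx, y, hy, hR⟩
    exact ⟨E x, mem_image_of_mem E hx, by rw [hR.2.2]; exact mem_image_of_mem E hy⟩
  · -- coc
    refine ⟨(fun p : Cn b × ℂ => pt p.1 p.2) ''
      ((⋃ i, closedBall (c i) 1) ×ˢ closedBall (0 : ℂ) 1), ?_, ?_, ?_⟩
    · rintro x ⟨p, ⟨hp1, -⟩, rfl⟩
      obtain ⟨i, hi⟩ := mem_iUnion.1 hp1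
      show base (pt p.1 p.2) ∈ Bd c r
      rw [Pool.Agent.Helper55.SP.base_pt]
      exact mem_iUnion.2 ⟨i, closedBall_subset_ball hr1 hi⟩
    · exact ((isCompact_iUnion fun i => isCompact_closedBall (c i) 1).prod
        (isCompact_closedBall (0 : ℂ) 1)).image Pool.Agent.Helper8.SP.continuous_pt
    · intro x hx
      obtain ⟨γ, z, hz, w, hw, hp⟩ := hL.cov (E x)
      refine ⟨γ, pt z w, ⟨(z, w), ⟨?_, ?_⟩, rfl⟩, hx, ?_, hp⟩
      · obtain ⟨i, hi⟩ := mem_iUnion.1 hz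
        exact mem_iUnion.2 ⟨i, ball_subset_closedBall hi⟩
      · simpa using hw.le
      · show base (pt z w) ∈ Bd c r
        rw [Pool.Agent.Helper55.SP.base_pt]
        exact Bd_mono c hr1.le hz
  · -- conn
    intro S hST hS hTS hinv
    have hopen : ∀ U ⊆ tubeS (Bd c r), IsOpen U →
        IsOpen (⋃ γ : G, (fun x => γ • E x) '' U) := by
      intro U hU hUo
      exact isOpen_iUnion fun γ => hP4 _ _ (hP2 γ _ _ hpar).1 U hU hUo
    have hA := hopen S hST hS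
    have hB := hopen (tubeS (Bd c r) \ S) sdiff_subset hTS
    have hcompl : (⋃ γ : G, (fun x => γ • E x) '' S)ᶜ =
        ⋃ γ : G, (fun x => γ • E x) '' (tubeS (Bd c r) \ S) := by
      ext p
      constructor
      · intro hp
        obtain ⟨γ, x, hx, -, -, hγ⟩ := hcov p
        refine mem_iUnion.2 ⟨γ⁻¹, x, ⟨hx, fun hxS => hp ?_⟩, ?_⟩
        · exact mem_iUnion.2 ⟨γ⁻¹, x, hxS, by
            show γ⁻¹ • E x = p
            rw [← hγ, inv_smul_smul]⟩
        · show γ⁻¹ • E x = p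
          rw [← hγ, inv_smul_smul]
      · intro hp hp'
        obtain ⟨γ, y, ⟨hyT, hyS⟩, hy⟩ := mem_iUnion.1 hp
        obtain ⟨γ', x, hxS, hx⟩ := mem_iUnion.1 hp'
        refine hyS ((hinv (γ⁻¹ * γ') x y ⟨hST hxS, hyT, ?_⟩).1 hxS)
        have hx1 : γ' • E x = p := hx
        have hy1 : γ • E y = p := hy
        rw [mul_smul, hx1, ← hy1, inv_smul_smul]
    have hclopen : IsClopen (⋃ γ : G, (fun x => γ • E x) '' S) := by
      refine ⟨⟨?_⟩, hA⟩
      rw [hcompl]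
      exact hB
    rcases isClopen_iff.1 hclopen with h0 | h1
    · left
      by_contra hne
      obtain ⟨x, hx⟩ := nonempty_iff_ne_empty.2 hne
      have : (fun x => (1 : G) • E x) x ∈ ⋃ γ : G, (fun x => γ • E x) '' S :=
        mem_iUnion.2 ⟨1, x, hx, rfl⟩
      rw [h0] at this
      exact this
    · right
      refine Subset.antisymm hST fun x hx => ?_
      by_contra hxS
      have : (fun x => (1 : G) • E x) x ∈ ⋃ γ : G, (fun x => γ • E x) '' (tubeS (Bd c r) \ S) :=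
        mem_iUnion.2 ⟨1, x, ⟨hx, hxS⟩, rfl⟩
      rw [← hcompl, h1] at this
      exact this (mem_univ _)
  · -- inv
    rintro U τ ⟨hU, hτ, γ, hγ⟩ x hx u w
    rw [hermi_pull, hermi_pull]
    have hxT := (hγ x hx).1
    have hyT := (hγ x hx).2.1
    have hEx : MDifferentiableAt 𝓘(ℂ, Fin (b + 1) → ℂ) 𝓘(ℂ, Fin (b + 1) → ℂ) E x :=
      hpar.1.2.mdifferentiableAt (hT.mem_nhds hxT)
    have hEy : MDifferentiableAt 𝓘(ℂ, Fin (b + 1) → ℂ) 𝓘(ℂ, Fin (b + 1) → ℂ) E (τ x) :=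
      hpar.1.2.mdifferentiableAt (hT.mem_nhds hyT)
    have hτx : MDifferentiableAt 𝓘(ℂ, Fin (b + 1) → ℂ) 𝓘(ℂ, Fin (b + 1) → ℂ) τ x :=
      mdifferentiableAt_iff_differentiableAt.2 (hτ.differentiableAt (hU.mem_nhds hx))
    have h1 := mfderiv_comp x hEy hτx
    have h2 := mfderiv_comp x (g := fun y : M => γ • y) (f := E) (hD.act.holo γ (E x)) hEx
    have h3 : (E ∘ τ) =ᶠ[𝓝 x] ((fun y : M => γ • y) ∘ E) := by
      filter_upwards [hU.mem_nhds hx] with y hy using (hγ y hy).2.2.symm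
    have h4 := h3.mfderiv_eq (I := 𝓘(ℂ, Fin (b + 1) → ℂ)) (I' := 𝓘(ℂ, Fin (b + 1) → ℂ))
    have h5 : ∀ e : Cn (b + 1), dvec (b + 1) E (τ x) (fderiv ℂ τ x e) =
        tvec (b + 1) (fun y : M => γ • y) (E x) (dvec (b + 1) E x e) := by
      intro e
      have h6 : (mfderiv 𝓘(ℂ, Fin (b + 1) → ℂ) 𝓘(ℂ, Fin (b + 1) → ℂ) (E ∘ τ) x :
          (Fin (b + 1) → ℂ) →L[ℂ] (Fin (b + 1) → ℂ)) e =
          dvec (b + 1) E (τ x) (fderiv ℂ τ x e) := by
        rw [h1, mfderiv_eq_fderiv]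
        rfl
      have h7 : (mfderiv 𝓘(ℂ, Fin (b + 1) → ℂ) 𝓘(ℂ, Fin (b + 1) → ℂ)
          ((fun y : M => γ • y) ∘ E) x :
          (Fin (b + 1) → ℂ) →L[ℂ] (Fin (b + 1) → ℂ)) e =
          tvec (b + 1) (fun y : M => γ • y) (E x) (dvec (b + 1) E x e) := by
        rw [h2]
        rfl
      rw [← h6, ← h7]
      exact congrArg (fun L : Cn (b + 1) →L[ℂ] Cn (b + 1) => L e) h4
    rw [h5, h5, ← (hγ x hx).2.2]
    exact hD.inv γ (E x) _ _

end Pool.Agent.Helper3.SP
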